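import Pool.Agent.N970.P225.E3
import Pool.Agent.N973.P15.Defs3

/-!
# R5E: the parity of the number of vectors of norm `4 m`, `5 ∣ m`: linear algebra

Adapted from `N916/RE/Fin.lean`.
-/

set_option autoImplicit false
set_option linter.style.haveILetI false

namespace Pool.Agent.N970.P225

open Finset Pool.Agent.N916.RE
open Pool.Agent.N877.TF hiding fo
open Pool.Agent.N855.P15 (sg sg_add sg_inj sg_sum sy sg_sy jac_prod PP dv dvd_dv add_self2)

/-- the prescribed symbols -/
def f5 (m p : ℕ) : ℤ := if p = 5 then -jacobiSym ((m / 5 : ℕ) : ℤ) 5 else jacobiSym (-5) p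

theorem Cn_CC {m r s t : ℕ} (hsq : Squarefree m) (h5 : 5 ∣ m) (h : r * s = m)
    (ht : t = 1 ∨ t = 2) : Cn m (f5 m) (t * r) ↔ CC t r s := by
  obtain ⟨-, -, hcop, hr0, hs0⟩ := sq_fac hsq h
  have hn : ∀ p : ℕ, p.Prime → p ∣ r → ¬ p ∣ s := fun p hp h h' =>
    hp.one_lt.ne' (Nat.eq_one_of_dvd_coprimes hcop h h')
  have hm0 := hsq.ne_zero
  have htp : ∀ p : ℕ, p.Prime → p ≠ 2 → ¬ p ∣ t := by
    intro p hp hp2 hpt
    rcases ht with rfl | rfl
    · exact hp.one_lt.ne' (Nat.dvd_one.1 hpt)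
    · exact hp2 ((Nat.prime_dvd_prime_iff_eq hp Nat.prime_two).1 hpt)
  have hZ : ∀ (p u : ℕ), p.Prime → p ≠ 2 → ¬ p ∣ u → ¬ (p : ℤ) ∣ (t : ℤ) * u := by
    intro p u hp hp2 hpu h'
    rcases (Nat.prime_iff_prime_int.1 hp).dvd_or_dvd h' with h'' | h''
    · exact htp p hp hp2 (by exact_mod_cast h'')
    · exact hpu (by exact_mod_cast h'')
  -- the symbol for the two kinds of primes
  have k1 : ∀ p : ℕ, p.Prime → p ≠ 2 → p ≠ 5 → p ∣ r →
      ((if p ∣ t * r then jacobiSym ((t * r / p * (m / p) : ℕ) : ℤ) p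
        else jacobiSym ((t * r : ℕ) : ℤ) p) = jacobiSym (-5) p ↔
        jacobiSym (-(5 * ((t : ℤ) * s))) p = 1) := by
    intro p hp hp2 hp5 hpr
    rw [if_pos (Dvd.dvd.mul_left hpr _), five_iff hp hp5 (hZ p s hp hp2 (hn p hp hpr))]
    obtain ⟨r', hr'⟩ := hpr
    have e1 : t * r / p * (m / p) = t * s * (r' * r') := by
      have a1 : t * r / p = t * r' := by
        rw [hr', show t * (p * r') = p * (t * r') by ring, Nat.mul_div_cancel_left _ hp.pos]
      have a2 : m / p = r' * s := by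
        rw [← h, hr', mul_assoc, Nat.mul_div_cancel_left _ hp.pos]
      rw [a1, a2]; ring
    have hpr' : ¬ p ∣ r' := by
      rintro ⟨k, hk⟩
      have : p * p ∣ m := ⟨k * s, by rw [← h, hr', hk]; ring⟩
      exact hp.one_lt.ne' (Nat.isUnit_iff.1 (hsq p this))
    have e2 : jacobiSym (((r' : ℤ)) ^ 2) p = 1 := by
      apply jacobiSym.sq_one'
      have := Nat.isCoprime_iff_coprime.2 ((Nat.Prime.coprime_iff_not_dvd hp).2 hpr').symm
      exact Int.isCoprime_iff_gcd_eq_one.1 this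
    rw [e1]
    push_cast
    rw [← sq, jacobiSym.mul_left, e2, mul_one]
  have k2 : ∀ p : ℕ, p.Prime → p ≠ 2 → p ≠ 5 → p ∣ s →
      ((if p ∣ t * r then jacobiSym ((t * r / p * (m / p) : ℕ) : ℤ) p
        else jacobiSym ((t * r : ℕ) : ℤ) p) = jacobiSym (-5) p ↔
        jacobiSym (-(5 * ((t : ℤ) * r))) p = 1) := by
    intro p hp hp2 hp5 hps
    have hpr : ¬ p ∣ r := fun h' => hn p hp h' hps
    have hptr : ¬ p ∣ t * r := by
      rw [Nat.Prime.dvd_mul hp]
      exact fun h' => h'.elim (htp p hp hp2) hpr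
    rw [if_neg hptr, five_iff hp hp5 (hZ p r hp hp2 hpr)]
    push_cast
    exact Iff.rfl
  -- the prime five
  have k5 : (if 5 ∣ t * r then jacobiSym ((t * r / 5 * (m / 5) : ℕ) : ℤ) 5
        else jacobiSym ((t * r : ℕ) : ℤ) 5) = -jacobiSym ((m / 5 : ℕ) : ℤ) 5 ↔ K5 t r s := by
    have hm5 : ¬ 5 ∣ m / 5 := by
      obtain ⟨k, hk⟩ := h5
      rw [hk, Nat.mul_div_cancel_left _ (by norm_num : 0 < 5)]
      rintro ⟨j, hj⟩
      exact absurd (Nat.isUnit_iff.1 (hsq 5 ⟨j, by rw [hk, hj]; ring⟩)) (by norm_num)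
    have h5' : 5 ∣ r * s := by rw [h]; exact h5
    rcases (Nat.Prime.dvd_mul Nat.prime_five).1 h5' with h1 | h1
    · have h2 : ¬ 5 ∣ s := hn 5 Nat.prime_five h1
      rw [if_pos (Dvd.dvd.mul_left h1 _)]
      have e1 : t * r / 5 = t * (r / 5) := Nat.mul_div_assoc t h1
      have e4 : jacobiSym ((t * (r / 5) * (m / 5) : ℕ) : ℤ) 5 =
          jacobiSym ((t : ℤ) * ((r / 5 : ℕ) : ℤ)) 5 * jacobiSym ((m / 5 : ℕ) : ℤ) 5 := by
        rw [Nat.cast_mul, Nat.cast_mul, jacobiSym.mul_left _ ((m / 5 : ℕ) : ℤ) 5]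
      rw [e1, e4]
      unfold K5
      have hj := jac_pm hm5
      constructor
      · intro h3
        refine ⟨fun h4 => absurd h4 h2, fun _ => ?_⟩
        rcases hj with hj | hj <;> rw [hj] at h3 <;> linarith
      · rintro ⟨-, h3⟩
        rw [h3 h1]
        ring
    · have h2 : ¬ 5 ∣ r := fun h' => hn 5 Nat.prime_five h' h1
      have h2' : ¬ 5 ∣ t * r := by
        rw [Nat.Prime.dvd_mul Nat.prime_five]
        exact fun h' => h'.elim (htp 5 Nat.prime_five (by norm_num)) h2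
      rw [if_neg h2']
      have e1 : m / 5 = r * (s / 5) := by rw [← h]; exact Nat.mul_div_assoc r h1
      have hs5 : ¬ 5 ∣ s / 5 := by
        intro h'
        apply hm5
        rw [e1]
        exact Dvd.dvd.mul_left h' _
      rw [e1]
      have hjr := jac_pm h2
      unfold K5
      have e2 : jacobiSym ((t * r : ℕ) : ℤ) 5 = jacobiSym (t : ℤ) 5 * jacobiSym (r : ℤ) 5 := by
        rw [Nat.cast_mul, jacobiSym.mul_left]
      have e3 : jacobiSym ((r * (s / 5) : ℕ) : ℤ) 5 =
          jacobiSym (r : ℤ) 5 * jacobiSym ((s / 5 : ℕ) : ℤ) 5 := by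
        rw [Nat.cast_mul, jacobiSym.mul_left]
      rw [e2, e3, jacobiSym.mul_left (t : ℤ) _ 5]
      have hjs := jac_pm hs5
      constructor
      · intro h3
        refine ⟨fun _ => ?_, fun h4 => absurd h4 h2⟩
        rcases hjr with hjr | hjr <;> rcases hjs with hjs | hjs <;> rw [hjr, hjs] at h3 <;>
          rw [hjs] <;> linarith
      · rintro ⟨h3, -⟩
        have h4 := h3 h1
        rcases hjr with hjr | hjr <;> rcases hjs with hjs | hjs <;> rw [hjs] at h4 <;>
          rw [hjr, hjs] <;> linarith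
  have hf : ∀ p, p ≠ 5 → f5 m p = jacobiSym (-5) p := fun p hp => if_neg hp
  have hf5 : f5 m 5 = -jacobiSym ((m / 5 : ℕ) : ℤ) 5 := if_pos rfl
  have h5m : 5 ∈ m.primeFactors := Nat.mem_primeFactors.2 ⟨Nat.prime_five, h5, hm0⟩
  constructor
  · intro H
    refine ⟨⟨?_, ?_⟩, ?_⟩
    · intro p hp hp2 hp5
      have hpp := Nat.prime_of_mem_primeFactors hp
      have hps := Nat.dvd_of_mem_primeFactors hp
      have := H p (Nat.mem_primeFactors.2 ⟨hpp, by
        rw [← h]; exact Dvd.dvd.mul_left hps _, hm0⟩) hp2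
      rw [hf p hp5] at this
      exact (k2 p hpp hp2 hp5 hps).1 this
    · intro p hp hp2 hp5
      have hpp := Nat.prime_of_mem_primeFactors hp
      have hps := Nat.dvd_of_mem_primeFactors hp
      have := H p (Nat.mem_primeFactors.2 ⟨hpp, by
        rw [← h]; exact Dvd.dvd.mul_right hps _, hm0⟩) hp2
      rw [hf p hp5] at this
      exact (k1 p hpp hp2 hp5 hps).1 this
    · have := H 5 h5m (by norm_num)
      rw [hf5] at this
      exact k5.1 this
  · rintro ⟨⟨H1, H2⟩, H3⟩ p hp hp2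
    have hpp := Nat.prime_of_mem_primeFactors hp
    have hpm := Nat.dvd_of_mem_primeFactors hp
    by_cases hp5 : p = 5
    · subst hp5
      rw [hf5]
      exact k5.2 H3
    rw [hf p hp5]
    rw [← h, Nat.Prime.dvd_mul hpp] at hpm
    rcases hpm with h3 | h3
    · exact (k1 p hpp hp2 hp5 h3).2 (H2 p (Nat.mem_primeFactors.2 ⟨hpp, h3, hr0.ne'⟩) hp2 hp5)
    · exact (k2 p hpp hp2 hp5 h3).2 (H1 p (Nat.mem_primeFactors.2 ⟨hpp, h3, hs0.ne'⟩) hp2 hp5)

/-- all factorizations -/
def DK (m : ℕ) : Finset (ℕ × ℕ) := (({1, 2} : Finset ℕ) ×ˢ m.divisors).filter fun q =>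
  (q.1 = 2 → m % 2 = 1) ∧ CC q.1 q.2 (m / q.2)

theorem mem_DK {m : ℕ} (hm0 : m ≠ 0) {t r : ℕ} : (t, r) ∈ DK m ↔
    (t = 1 ∨ t = 2) ∧ r ∣ m ∧ (t = 2 → m % 2 = 1) ∧ CC t r (m / r) := by
  simp only [DK, mem_filter, mem_product, mem_insert, mem_singleton, Nat.mem_divisors]
  tauto

theorem card_DK {m : ℕ} (hsq : Squarefree m) (hm1 : m ≠ 1) : (DK m).card = 2 * (AK2 m).card := by
  have hm0 := hsq.ne_zero
  have h1 : (DK m).card = ((DK m).filter fun q => q.2 * q.2 < m).card +
      ((DK m).filter fun q => ¬ q.2 * q.2 < m).card :=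
    (Finset.card_filter_add_card_filter_not _).symm
  have h2 : (DK m).filter (fun q => q.2 * q.2 < m) = AK2 m := by
    unfold DK AK2
    rw [Finset.filter_filter]
    apply Finset.filter_congr
    intro q _
    tauto
  have hfac : ∀ r, r ∣ m → r * (m / r) = m ∧ m / (m / r) = r ∧ 0 < r ∧ r * r ≠ m := by
    intro r hr
    have hrs : r * (m / r) = m := Nat.mul_div_cancel' hr
    refine ⟨hrs, Nat.div_div_self hr hm0, (sq_fac hsq hrs).2.2.2.1, ?_⟩
    intro h
    have := Nat.isUnit_iff.1 (hsq r ⟨1, by rw [mul_one]; exact h.symm⟩)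
    rw [this] at h
    exact hm1 h.symm
  have h3 : ((DK m).filter fun q => ¬ q.2 * q.2 < m).card =
      ((DK m).filter fun q => q.2 * q.2 < m).card := by
    refine Finset.card_bij' (fun q _ => (q.1, m / q.2)) (fun q _ => (q.1, m / q.2)) ?_ ?_ ?_ ?_
    · rintro ⟨t, r⟩ hq
      obtain ⟨hq, hlt⟩ := mem_filter.1 hq
      rw [mem_DK hm0] at hq
      obtain ⟨q1, q2, q3, q4⟩ := hq
      obtain ⟨f1, f2, f3, f4⟩ := hfac r q2
      simp only at hlt ⊢
      rw [mem_filter, mem_DK hm0]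
      refine ⟨⟨q1, Nat.div_dvd_of_dvd q2, q3, ?_⟩, ?_⟩
      · rw [f2]; exact CC_symm.1 q4
      · simp only
        have h5 : m < r * r := lt_of_le_of_ne (not_lt.1 hlt) (Ne.symm f4)
        have h6 : r * (m / r) < r * r := by rw [f1]; exact h5
        have h7 : m / r < r := lt_of_mul_lt_mul_left h6 (Nat.zero_le r)
        have h8 : m / r * (m / r) ≤ m := by
          calc m / r * (m / r) ≤ r * (m / r) := Nat.mul_le_mul_right _ h7.le
            _ = m := f1
        exact lt_of_le_of_ne h8 (hfac (m / r) (Nat.div_dvd_of_dvd q2)).2.2.2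
    · rintro ⟨t, r⟩ hq
      obtain ⟨hq, hlt⟩ := mem_filter.1 hq
      rw [mem_DK hm0] at hq
      obtain ⟨q1, q2, q3, q4⟩ := hq
      obtain ⟨f1, f2, f3, f4⟩ := hfac r q2
      simp only at hlt ⊢
      rw [mem_filter, mem_DK hm0]
      refine ⟨⟨q1, Nat.div_dvd_of_dvd q2, q3, ?_⟩, ?_⟩
      · rw [f2]; exact CC_symm.1 q4
      · simp only
        rw [not_lt]
        have h6 : r * r < r * (m / r) := by rw [f1]; exact hlt
        have h7 : r < m / r := lt_of_mul_lt_mul_left h6 (Nat.zero_le r)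
        calc m = r * (m / r) := f1.symm
          _ ≤ m / r * (m / r) := Nat.mul_le_mul_right _ h7.le
    · rintro ⟨t, r⟩ hq
      obtain ⟨hq, hlt⟩ := mem_filter.1 hq
      rw [mem_DK hm0] at hq
      simp only
      rw [(hfac r hq.2.1).2.1]
    · rintro ⟨t, r⟩ hq
      obtain ⟨hq, hlt⟩ := mem_filter.1 hq
      rw [mem_DK hm0] at hq
      simp only
      rw [(hfac r hq.2.1).2.1]
  rw [h1, h3, h2]
  ring

theorem card_solK {m : ℕ} (hsq : Squarefree m) (h5 : 5 ∣ m) (κ : WW m → ZMod 2)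
    (hκ : ∀ p : WW m, f5 m (p : ℕ) = sg (κ p)) :
    Nat.card {x // Lm m x = κ} = (DK m).card := by
  have hm0 := hsq.ne_zero
  have hsqt : ∀ t r : ℕ, (t, r) ∈ DK m → Squarefree (t * r) ∧
      ∀ p ∈ (t * r).primeFactors, p ∣ 4 * m := by
    intro t r hq
    rw [mem_DK hm0] at hq
    obtain ⟨q1, q2, q3, q4⟩ := hq
    have hrs : Squarefree r := hsq.squarefree_of_dvd q2
    rcases q1 with rfl | rfl
    · rw [one_mul]
      exact ⟨hrs, fun p hp => ((Nat.dvd_of_mem_primeFactors hp).trans q2).trans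
        (Dvd.intro_left _ rfl)⟩
    · have hmo := q3 rfl
      have hro : Odd r := by
        rw [← Nat.not_even_iff_odd, even_iff_two_dvd]
        intro h
        have := h.trans q2
        omega
      constructor
      · rw [Nat.squarefree_mul (Nat.coprime_two_left.2 hro)]
        exact ⟨Nat.prime_two.squarefree, hrs⟩
      · intro p hp
        have hpp := Nat.prime_of_mem_primeFactors hp
        have := Nat.dvd_of_mem_primeFactors hp
        rcases (Nat.Prime.dvd_mul hpp).1 this with h | h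
        · exact Dvd.dvd.mul_right (h.trans (by norm_num)) _
        · exact Dvd.dvd.mul_left (h.trans q2) _
  have hcc : ∀ t r : ℕ, (t = 1 ∨ t = 2) → r ∣ m →
      (Cn m (f5 m) (t * r) ↔ CC t r (m / r)) := fun t r ht hr =>
    Cn_CC hsq h5 (Nat.mul_div_cancel' hr) ht
  have key : Nat.card {q // q ∈ DK m} = Nat.card {x // Lm m x = κ} := by
    refine Nat.card_eq_of_bijective (fun q => (⟨fun p => if (p : ℕ) ∣ q.1.1 * q.1.2 then 1 else 0,
      ?_⟩ : {x // Lm m x = κ})) ⟨?_, ?_⟩
    · obtain ⟨⟨t, r⟩, hq⟩ := q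
      obtain ⟨s1, s2⟩ := hsqt t r hq
      rw [← Cn_iff hsq κ (f5 m) hκ, dv_of s1 s2 hm0]
      rw [mem_DK hm0] at hq
      exact (hcc t r hq.1 hq.2.1).2 hq.2.2.2
    · rintro ⟨⟨t, r⟩, hq⟩ ⟨⟨t', r'⟩, hq'⟩ heq
      have h1 := congrArg Subtype.val heq
      simp only at h1
      obtain ⟨s1, s2⟩ := hsqt t r hq
      obtain ⟨s1', s2'⟩ := hsqt t' r' hq'
      have h2 : t * r = t' * r' := by
        rw [← dv_of s1 s2 hm0, ← dv_of s1' s2' hm0, h1]
      rw [mem_DK hm0] at hq hq'
      obtain ⟨a1, a2, a3, -⟩ := hq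
      obtain ⟨b1, b2, b3, -⟩ := hq'
      apply Subtype.ext
      simp only [Prod.mk.injEq]
      rcases a1 with rfl | rfl <;> rcases b1 with rfl | rfl
      · exact ⟨rfl, by omega⟩
      · exfalso
        have h3 : 2 ∣ r := ⟨r', by omega⟩
        have := h3.trans a2
        have := b3 rfl
        omega
      · exfalso
        have h3 : 2 ∣ r' := ⟨r, by omega⟩
        have := h3.trans b2
        have := a3 rfl
        omega
      · exact ⟨rfl, by omega⟩
    · rintro ⟨x, hx⟩
      rw [← Cn_iff hsq κ (f5 m) hκ] at hx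
      have d1 := dv_sq x
      have d2 := dv_supp x
      obtain ⟨t, r, ht, hr, hm, htr⟩ : ∃ t r : ℕ, (t = 1 ∨ t = 2) ∧ r ∣ m ∧ (t = 2 → m % 2 = 1) ∧
          t * r = dv (4 * m) x := by
        by_cases hc : m % 2 = 1 ∧ 2 ∣ dv (4 * m) x
        · obtain ⟨hc1, k, hk⟩ := hc
          refine ⟨2, k, Or.inr rfl, ?_, fun _ => hc1, hk.symm⟩
          rw [hk] at d1 d2
          have d3 : Squarefree k := d1.squarefree_of_dvd (Dvd.intro_left _ rfl)
          apply sqdvd d3
          intro p hp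
          have hpp := Nat.prime_of_mem_primeFactors hp
          have hpk := Nat.dvd_of_mem_primeFactors hp
          have h6 : p ∣ 4 * m := d2 p (Nat.mem_primeFactors.2 ⟨hpp, Dvd.dvd.mul_left hpk _,
            d1.ne_zero⟩)
          have h7 : p ≠ 2 := by
            rintro rfl
            obtain ⟨j, hj⟩ := hpk
            have : 2 * 2 ∣ 2 * k := ⟨j, by rw [hj]; ring⟩
            exact absurd (Nat.isUnit_iff.1 (d1 2 this)) (by norm_num)
          have h8 : Nat.Coprime p 4 := by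
            have : (4 : ℕ) = 2 * 2 := rfl
            rw [this]
            have := (Nat.coprime_primes hpp Nat.prime_two).2 h7
            exact Nat.Coprime.mul_right this this
          exact h8.dvd_of_dvd_mul_left h6
        · refine ⟨1, dv (4 * m) x, Or.inl rfl, ?_, fun h => by omega, one_mul _⟩
          apply sqdvd d1
          intro p hp
          have hpp := Nat.prime_of_mem_primeFactors hp
          have hpk := Nat.dvd_of_mem_primeFactors hp
          have h6 := d2 p hp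
          by_cases h7 : p = 2
          · subst h7
            by_contra h8
            exact hc ⟨by omega, hpk⟩
          · have h8 : Nat.Coprime p 4 := by
              have : (4 : ℕ) = 2 * 2 := rfl
              rw [this]
              have := (Nat.coprime_primes hpp Nat.prime_two).2 h7
              exact Nat.Coprime.mul_right this this
            exact h8.dvd_of_dvd_mul_left h6
      have hmem : (t, r) ∈ DK m := by
        rw [mem_DK hm0]
        refine ⟨ht, hr, hm, ?_⟩
        rw [← hcc t r ht hr, htr]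
        exact hx
      refine ⟨⟨(t, r), hmem⟩, ?_⟩
      apply Subtype.ext
      simp only
      apply dv_inj
      obtain ⟨s1, s2⟩ := hsqt t r hmem
      rw [dv_of s1 s2 hm0, htr]
  rw [← key, Nat.card_eq_fintype_card, Fintype.card_coe]

/-- **the parity of the number of the ambiguous forms** -/
theorem par_AK2 {m : ℕ} (hsq : Squarefree m) (h5 : 5 ∣ m) :
    Odd (AK2 m).card ↔ Pool.Agent.N969.P15.Qe (4 * m) := by
  have hm0 := hsq.ne_zero
  have hm1 : m ≠ 1 := by rintro rfl; omega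
  have hm5 : ¬ 5 ∣ m / 5 := by
    obtain ⟨k, hk⟩ := h5
    rw [hk, Nat.mul_div_cancel_left _ (by norm_num : 0 < 5)]
    rintro ⟨j, hj⟩
    exact absurd (Nat.isUnit_iff.1 (hsq 5 ⟨j, by rw [hk, hj]; ring⟩)) (by norm_num)
  let κ : WW m → ZMod 2 := fun p => if f5 m (p : ℕ) = 1 then 0 else 1
  have hκ : ∀ p : WW m, f5 m (p : ℕ) = sg (κ p) := by
    intro p
    have hpp := Nat.prime_of_mem_primeFactors (Finset.mem_of_mem_erase p.2)
    have hpm : f5 m (p : ℕ) = 1 ∨ f5 m (p : ℕ) = -1 := by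
      unfold f5
      split_ifs with hp5
      · rcases jac_pm hm5 with h | h <;> rw [h]
        · exact Or.inr rfl
        · exact Or.inl (by norm_num)
      · have g1 : (-5 : ℤ).gcd (p : ℕ) = 1 := by
          change Nat.gcd 5 (p : ℕ) = 1
          exact (Nat.coprime_primes Nat.prime_five hpp).2 (Ne.symm hp5)
        exact jacobiSym.eq_one_or_neg_one g1
    show f5 m (p : ℕ) = sg (if f5 m (p : ℕ) = 1 then 0 else 1)
    rcases hpm with h | h <;> rw [h]
    · rw [if_pos rfl]; rfl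
    · rw [if_neg (by norm_num)]; rfl
  have hcard : Fintype.card (PP (4 * m)) = Fintype.card (WW m) + 1 := by
    rw [Fintype.card_coe, Fintype.card_coe]
    exact card_pf4 hm0
  rw [Qe_iff hsq, ← lin2 hcard (Lm m) (ev_ne hsq hm1) (Lm_ev hsq) κ,
    card_solK hsq h5 _ hκ, card_DK hsq hm1, Nat.odd_iff]
  omega

/-- **R5E** -/
theorem t_R5E : Pool.Agent.N973.P15.S_R5E := by
  rintro n ⟨m, rfl, hsq, hm⟩ h5
  have h5' : 5 ∣ m := by omega
  refine ⟨3 * (((Rd (4 * m)).filter fun g => GcK m g).card : ℤ), ?_, ?_⟩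
  · rw [card_vecE hsq hm h5']
    ring
  · rw [← par_AK2 hsq h5', ← card_ambE hsq hm h5', ← card_parityE, Int.odd_mul]
    constructor
    · rintro ⟨-, h⟩
      exact_mod_cast h
    · intro h
      exact ⟨by decide, by exact_mod_cast h⟩

end Pool.Agent.N970.P225
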