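import Pool.Agent.N970.P225.R5

/-!
# The parity of the number of vectors of norm `n`, `5 ∣ n`: linear algebra
-/

set_option autoImplicit false

namespace Pool.Agent.N970.P225

open Finset Pool.Agent.N855.P15

theorem lkey {n : ℕ} (hn : Squarefree n) (x : PP n → ZMod 2) (p : PP n) :
    jacobiSym (if (p : ℕ) ∣ dv n x then ((n / dv n x : ℕ) : ℤ) else (dv n x : ℤ)) p =
      sg (LL n x p) := by
  rw [LL_apply]
  by_cases h : x p = 1
  · rw [if_pos ((dvd_dv x p).2 h), dv_div hn, jac_dv]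
    · congr 1
      apply sum_congr rfl
      intro q _
      rw [h]
      rfl
    · simp only [Pi.add_apply, Pi.one_apply, h]
      decide
  · rw [if_neg (fun h1 => h ((dvd_dv x p).1 h1)), jac_dv x p h]
    congr 1
    have : ∀ a : ZMod 2, ¬ a = 1 → a = 0 := by decide
    rw [this _ h]
    exact sum_congr rfl fun q _ => by rw [add_zero]

theorem dv_surj {n d : ℕ} (hn : Squarefree n) (hd : d ∣ n) : ∃ x : PP n → ZMod 2, dv n x = d := by
  have hd0 : d ≠ 0 := fun h => hn.ne_zero (by rw [h] at hd; exact zero_dvd_iff.1 hd)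
  refine ⟨fun p => if (p : ℕ) ∣ d then 1 else 0, ?_⟩
  unfold dv
  have h1 : univ.filter (fun p : PP n => (if (p : ℕ) ∣ d then (1 : ZMod 2) else 0) = 1) =
      univ.filter (fun p : PP n => (p : ℕ) ∣ d) := by
    apply filter_congr
    intro p _
    split_ifs with h <;> simp [h]
  rw [h1]
  have h2 : ∏ p ∈ univ.filter (fun p : PP n => (p : ℕ) ∣ d), (p : ℕ) =
      ∏ p ∈ n.primeFactors.filter (fun p => p ∣ d), p := by
    rw [prod_filter, prod_filter]
    exact Finset.prod_coe_sort n.primeFactors (fun p => if p ∣ d then p else 1)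
  rw [h2]
  have h3 : n.primeFactors.filter (fun p => p ∣ d) = d.primeFactors := by
    ext p
    simp only [mem_filter, Nat.mem_primeFactors]
    exact ⟨fun h => ⟨h.1.1, h.2, hd0⟩, fun h => ⟨⟨h.1, h.2.1.trans hd, hn.ne_zero⟩, h.2.1⟩⟩
  rw [h3]
  exact Nat.prod_primeFactors_of_squarefree (hn.squarefree_of_dvd hd)

/-- the condition at the primes other than five implies the condition at five -/
theorem cnd_away {n : ℕ} (hn : Squarefree n) (h3 : n % 4 = 3) (h5 : 5 ∣ n)
    (κ : PP n → ZMod 2) (hκ : ∑ p, κ p = 0) (f : ℕ → ℤ) (hf : ∀ p : PP n, f p = sg (κ p))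
    {d : ℕ} (hd : d ∣ n)
    (h : ∀ p ∈ n.primeFactors, p ≠ 5 →
      jacobiSym (if p ∣ d then ((n / d : ℕ) : ℤ) else (d : ℤ)) p = f p) : Cnd n f d := by
  obtain ⟨x, rfl⟩ := dv_surj hn hd
  rw [cnd_iff hn κ f hf]
  have hp5 : 5 ∈ n.primeFactors := Nat.mem_primeFactors.2 ⟨Nat.prime_five, h5, hn.ne_zero⟩
  have h1 : ∀ p : PP n, p ≠ ⟨5, hp5⟩ → LL n x p = κ p := by
    intro p hp
    apply sg_inj
    rw [← lkey hn, ← hf p]
    exact h p p.2 fun h6 => hp (Subtype.ext h6)
  funext p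
  by_cases hp : p = ⟨5, hp5⟩
  · have h2 := LL_sum hn h3 x
    rw [← hκ, ← Finset.add_sum_erase _ _ (mem_univ p), ← Finset.add_sum_erase _ κ (mem_univ p),
      Finset.sum_congr rfl (g := κ)] at h2
    · exact add_right_cancel h2
    · intro q hq
      exact h1 q fun h6 => (Finset.mem_erase.1 hq).1 (h6.trans hp.symm)
  · exact h1 p hp

open Classical in
theorem card_two {n : ℕ} (hn : Squarefree n) (h3 : n % 4 = 3) (f : ℕ → ℤ) :
    Nat.card {d : ℕ // d ∣ n ∧ Cnd n f d} =
      2 * (n.divisors.filter fun d => Cnd n f d ∧ d * d < n).card := by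
  have h1 : Nat.card {d : ℕ // d ∣ n ∧ Cnd n f d} =
      (n.divisors.filter fun d => Cnd n f d).card := by
    refine Nat.subtype_card _ fun d => ?_
    rw [mem_filter, Nat.mem_divisors]
    exact ⟨fun h => ⟨h.1.1, h.2⟩, fun h => ⟨⟨h.1, hn.ne_zero⟩, h.2⟩⟩
  have h2 : (n.divisors.filter fun d => Cnd n f d).card =
      (n.divisors.filter fun d => Cnd n f d ∧ d * d < n).card +
        (n.divisors.filter fun d => Cnd n f d ∧ ¬ d * d < n).card := by
    rw [← Finset.filter_filter, ← Finset.filter_filter]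
    exact (Finset.card_filter_add_card_filter_not _).symm
  have h4 : (n.divisors.filter fun d => Cnd n f d ∧ d * d < n).card =
      (n.divisors.filter fun d => Cnd n f d ∧ ¬ d * d < n).card := by
    have hsq : ∀ d, d * d ≠ n := by
      intro d hd
      have : d % 4 = 0 ∨ d % 4 = 1 ∨ d % 4 = 2 ∨ d % 4 = 3 := by omega
      rcases this with h | h | h | h <;> rw [← hd, Nat.mul_mod, h] at h3 <;> omega
    refine Finset.card_nbij' (fun d => n / d) (fun d => n / d) ?_ ?_ ?_ ?_
    · intro d hd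
      obtain ⟨h1, h2, h4⟩ := mem_filter.1 hd
      obtain ⟨E, hE⟩ := Nat.dvd_of_mem_divisors h1
      have hd0 : 0 < d := Nat.pos_of_ne_zero fun h0 => hn.ne_zero (by rw [hE, h0, zero_mul])
      have hE' : n / d = E := Nat.div_eq_of_eq_mul_right hd0 hE
      simp only
      rw [hE']
      refine mem_filter.2 ⟨Nat.mem_divisors.2 ⟨⟨d, by rw [hE, mul_comm]⟩, hn.ne_zero⟩,
        cnd_symm hn hE.symm _ h2, ?_⟩
      rw [not_lt]
      have hdE : d < E := by
        rw [hE] at h4
        exact lt_of_mul_lt_mul_left h4 hd0.le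
      rw [hE]
      exact Nat.mul_le_mul_right E hdE.le
    · intro d hd
      obtain ⟨h1, h2, h4⟩ := mem_filter.1 hd
      obtain ⟨E, hE⟩ := Nat.dvd_of_mem_divisors h1
      have hd0 : 0 < d := Nat.pos_of_ne_zero fun h0 => hn.ne_zero (by rw [hE, h0, zero_mul])
      have hE' : n / d = E := Nat.div_eq_of_eq_mul_right hd0 hE
      simp only
      rw [hE']
      refine mem_filter.2 ⟨Nat.mem_divisors.2 ⟨⟨d, by rw [hE, mul_comm]⟩, hn.ne_zero⟩,
        cnd_symm hn hE.symm _ h2, ?_⟩
      have h5 : n < d * d := lt_of_le_of_ne (not_lt.1 h4) (Ne.symm (hsq d))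
      rw [hE] at h5 ⊢
      have hdE : E < d := lt_of_mul_lt_mul_left h5 hd0.le
      have hE0 : 0 < E := Nat.pos_of_ne_zero fun h0 => hn.ne_zero (by rw [hE, h0, mul_zero])
      exact Nat.mul_lt_mul_of_pos_right hdE hE0
    · intro d hd
      obtain ⟨h1, h2, h4⟩ := mem_filter.1 hd
      exact Nat.div_div_self (Nat.dvd_of_mem_divisors h1) hn.ne_zero
    · intro d hd
      obtain ⟨h1, h2, h4⟩ := mem_filter.1 hd
      exact Nat.div_div_self (Nat.dvd_of_mem_divisors h1) hn.ne_zero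
  rw [h1, h2, ← h4]
  ring

theorem jac20 {n p : ℕ} (h4 : n % 4 = 3) (hp : p.Prime) (hpn : p ∣ n) (hp5 : p ≠ 5) {x : ℕ}
    (hx : ¬ p ∣ x) :
    (jacobiSym (-(2 * 10 * (x : ℤ))) p = 1 ↔ jacobiSym (x : ℤ) p = jacobiSym (-5) p) := by
  rw [Pool.Agent.N877.P15.jac5 h4 hp hpn, jacobiSym.mul_left]
  have g1 : (-5 : ℤ).gcd p = 1 := by
    change Nat.gcd 5 p = 1
    exact (Nat.coprime_primes Nat.prime_five hp).2 (Ne.symm hp5)
  have g2 : (x : ℤ).gcd p = 1 := by
    rw [Int.gcd_natCast_natCast]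
    exact ((Nat.Prime.coprime_iff_not_dvd hp).2 hx).symm
  rcases jacobiSym.eq_one_or_neg_one g1 with k1 | k1 <;>
    rcases jacobiSym.eq_one_or_neg_one g2 with k2 | k2 <;> rw [k1, k2] <;> norm_num

/-- the parity of the number of ambiguous forms -/
theorem ak_odd {n : ℕ} (hn : Squarefree n) (h4 : n % 4 = 3) (h5 : 5 ∣ n) :
    Odd (AK n 10).card ↔ Pool.Agent.N969.P15.Qc n := by
  classical
  have hp5 : 5 ∈ n.primeFactors := Nat.mem_primeFactors.2 ⟨Nat.prime_five, h5, hn.ne_zero⟩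
  have : Nonempty (PP n) := ⟨⟨5, hp5⟩⟩
  let P5 : PP n := ⟨5, hp5⟩
  let κ : PP n → ZMod 2 := fun p => if p = P5 then ∑ q ∈ univ.erase P5, sy (-5) (q : ℕ)
    else sy (-5) (p : ℕ)
  let f : ℕ → ℤ := fun p => if h : p ∈ n.primeFactors then sg (κ ⟨p, h⟩) else 0
  have hf : ∀ p : PP n, f p = sg (κ p) := by
    intro p
    show (if h : (p : ℕ) ∈ n.primeFactors then sg (κ ⟨p, h⟩) else 0) = sg (κ p)
    rw [dif_pos p.2]
  have hf' : ∀ p ∈ n.primeFactors, p ≠ 5 → f p = jacobiSym (-5) p := by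
    intro p hp hp5'
    have h1 := hf ⟨p, hp⟩
    simp only at h1
    rw [h1]
    show sg (if (⟨p, hp⟩ : PP n) = P5 then _ else sy (-5) p) = _
    rw [if_neg (fun h => hp5' (congrArg Subtype.val h))]
    apply sg_sy
    change Nat.gcd 5 p = 1
    exact (Nat.coprime_primes Nat.prime_five (Nat.prime_of_mem_primeFactors hp)).2 (Ne.symm hp5')
  have hκ0 : ∑ p, κ p = 0 := by
    rw [← Finset.add_sum_erase _ _ (mem_univ P5)]
    have h1 : κ P5 = ∑ q ∈ univ.erase P5, sy (-5) (q : ℕ) := if_pos rfl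
    have h2 : ∑ q ∈ univ.erase P5, κ q = ∑ q ∈ univ.erase P5, sy (-5) (q : ℕ) := by
      refine Finset.sum_congr rfl fun q hq => ?_
      exact if_neg (Finset.mem_erase.1 hq).1
    rw [h1, h2]
    exact add_self2 _
  have hcard := lin (LL n) (LL_one n) (LL_sum hn h4) κ hκ0
  rw [dv_bij hn κ f hf, ← Qj_iff hn, ← Qc_iff hn.ne_zero, card_two hn h4 f] at hcard
  rw [← hcard]
  have hAK : AK n 10 = n.divisors.filter fun d => Cnd n f d ∧ d * d < n := by
    unfold AK
    apply filter_congr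
    intro r hr
    rw [and_comm (a := Cnd n f r)]
    refine and_congr_right fun _ => ?_
    obtain ⟨E, hE⟩ := Nat.dvd_of_mem_divisors hr
    have hrn : r ∣ n := Nat.dvd_of_mem_divisors hr
    have hr0 : 0 < r := Nat.pos_of_ne_zero fun h0 => hn.ne_zero (by rw [hE, h0, zero_mul])
    have hE0 : E ≠ 0 := fun h0 => hn.ne_zero (by rw [hE, h0, mul_zero])
    have hE' : n / r = E := Nat.div_eq_of_eq_mul_right hr0 hE
    rw [hE']
    have hdE : ∀ p ∈ n.primeFactors, (p ∣ r ∧ ¬ p ∣ E) ∨ (¬ p ∣ r ∧ p ∣ E) := by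
      intro p hp
      have hpp := Nat.prime_of_mem_primeFactors hp
      have hpn := Nat.dvd_of_mem_primeFactors hp
      by_cases h1 : p ∣ r
      · left
        refine ⟨h1, fun h2 => ?_⟩
        have h7 : p * p ∣ n := by
          rw [hE]
          exact mul_dvd_mul h1 h2
        exact hpp.one_lt.ne' (Nat.isUnit_iff.1 (hn p h7))
      · right
        refine ⟨h1, ?_⟩
        rw [hE] at hpn
        exact ((Nat.Prime.dvd_mul hpp).1 hpn).resolve_left h1
    constructor
    · rintro ⟨a1, a2⟩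
      refine cnd_away hn h4 h5 κ hκ0 f hf hrn fun p hp hp5' => ?_
      have hpp := Nat.prime_of_mem_primeFactors hp
      have hpn := Nat.dvd_of_mem_primeFactors hp
      rw [hE', hf' p hp hp5']
      rcases hdE p hp with ⟨b1, b2⟩ | ⟨b1, b2⟩
      · rw [if_pos b1]
        exact (jac20 h4 hpp hpn hp5' b2).1 (a1 p (Nat.mem_primeFactors.2 ⟨hpp, b1, hr0.ne'⟩) hp5')
      · rw [if_neg b1]
        exact (jac20 h4 hpp hpn hp5' b1).1 (a2 p (Nat.mem_primeFactors.2 ⟨hpp, b2, hE0⟩) hp5')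
    · intro hc
      constructor
      · intro p hp hp5'
        have hpp := Nat.prime_of_mem_primeFactors hp
        have b1 := Nat.dvd_of_mem_primeFactors hp
        have hpn : p ∣ n := b1.trans ⟨E, hE⟩
        have hp' : p ∈ n.primeFactors := Nat.mem_primeFactors.2 ⟨hpp, hpn, hn.ne_zero⟩
        have b2 : ¬ p ∣ E := by
          rcases hdE p hp' with h | h
          · exact h.2
          · exact absurd b1 h.1
        have := hc p hp'
        rw [if_pos b1, hE', hf' p hp' hp5'] at this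
        exact (jac20 h4 hpp hpn hp5' b2).2 this
      · intro p hp hp5'
        have hpp := Nat.prime_of_mem_primeFactors hp
        have b2 := Nat.dvd_of_mem_primeFactors hp
        have hpn : p ∣ n := b2.trans ⟨r, by rw [hE, mul_comm]⟩
        have hp' : p ∈ n.primeFactors := Nat.mem_primeFactors.2 ⟨hpp, hpn, hn.ne_zero⟩
        have b1 : ¬ p ∣ r := by
          rcases hdE p hp' with h | h
          · exact absurd b2 h.2
          · exact h.1
        have := hc p hp'
        rw [if_neg b1, hf' p hp' hp5'] at this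
        exact (jac20 h4 hpp hpn hp5' b1).2 this
  rw [hAK, Nat.odd_iff]
  omega

open Pool.Agent.N877.TF Pool.Agent.N877.P15 Pool.Agent.N969.P15 in
/-- **R5**: the number of vectors of norm `n` and its parity for `5 ∣ n` -/
theorem t_R5 : ∀ n : ℕ, Squarefree n → n % 4 = 3 → 5 ∣ n →
    ∃ g : ℤ, rr n = 2 ^ (n.primeFactors.card - 1) * g ∧ (Odd g ↔ Qc n) := by
  intro n hsq h4 h5
  obtain ⟨m, hm⟩ := h5
  have hodd : Odd n := Nat.odd_iff.2 (by omega)
  have h5m : ¬ 5 ∣ m := by
    rintro ⟨k, rfl⟩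
    have : 5 * 5 ∣ n := ⟨k, by rw [hm]; ring⟩
    exact absurd (Nat.isUnit_iff.1 (hsq 5 this)) (by norm_num)
  have hcop : IsCoprime S15.d (m : ℤ) := by
    rw [d15]
    have : Nat.Coprime 10 m := by
      rw [show 10 = 2 * 5 by norm_num]
      refine Nat.Coprime.mul_left ?_ ?_
      · exact (Nat.Prime.coprime_iff_not_dvd Nat.prime_two).2 (by omega)
      · exact (Nat.Prime.coprime_iff_not_dvd (by norm_num)).2 h5m
    exact_mod_cast Nat.isCoprime_iff_coprime.2 this
  refine ⟨3 * ((((Rd n).filter fun g => Gk n 10 g).card : ℕ) : ℤ), ?_, ?_⟩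
  · have h := card_vec S15 pos15 tors15 (by norm_num) (by rw [d15]; norm_num)
      (by rw [d15]; norm_num) hm hsq hodd (by omega) hcop (mem_vec' n) (fun _ _ u _ => even15 u)
    rw [d15] at h
    have h' : (2 : ℤ) * (vec n).card = 2 * (3 * 2 ^ (n.primeFactors.card - 1) *
        ((Rd n).filter fun g => Gk n 10 g).card) := by
      have : ((2 * (vec n).card : ℕ) : ℤ) = ((6 * 2 ^ (n.primeFactors.card - 1) *
        ((Rd n).filter fun g => Gk n 10 g).card : ℕ) : ℤ) := by rw [h]
      push_cast at this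
      rw [this]; ring
    have h2 := mul_left_cancel₀ two_ne_zero h'
    rw [rr, h2]
    ring
  · rw [← ak_odd hsq h4 ⟨m, hm⟩, ← card_amb hsq h4, ← card_parity hodd]
    constructor
    · intro h
      have := (Int.odd_mul.1 h).2
      exact_mod_cast this
    · intro h
      exact Int.odd_mul.2 ⟨by decide, by exact_mod_cast h⟩

end Pool.Agent.N970.P225
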