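import Pool.Agent.N877.P15.R
import Pool.Agent.N855.P15.AA5

/-!
# The number of vectors of norm `n` and its parity for `5 ∣ n`

Adapted from `N877/TF/Fin.lean`, `N877/TF/Amb.lean`, `N877/P15/R.lean` and `N855/P15/Sol.lean`: the
prime five divides the determinant of the lattice, there is no condition at five.
-/

set_option autoImplicit false

namespace Pool.Agent.N970.P225

open Finset Pool.Agent.N877.TF

/-- the genus condition away from five -/
def Gk (n : ℕ) (d : ℤ) (g : ℤ × ℤ × ℤ) : Prop :=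
  ∀ p ∈ n.primeFactors.erase 5, jacobiSym (-(2 * d * vl n g)) p = 1

instance (n : ℕ) (d : ℤ) (g : ℤ × ℤ × ℤ) : Decidable (Gk n d g) := by
  unfold Gk; infer_instance

variable (S : Co)

theorem five_mem {n m : ℕ} (hn : n = 5 * m) (hsq : Squarefree n) : 5 ∈ n.primeFactors := by
  rw [Nat.mem_primeFactors]
  exact ⟨Nat.prime_five, ⟨m, hn⟩, hsq.ne_zero⟩

theorem card_PP_red {τ : ℕ} (hT : S.Tors τ) (hτ : τ ≠ 0) (hd : 0 < S.d) (h5d : (5 : ℤ) ∣ S.d)
    {n m : ℕ} (hnm : n = 5 * m) (hsq : Squarefree n) (hodd : Odd n)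
    (hcop : IsCoprime S.d (m : ℤ)) {g : ℤ × ℤ × ℤ}
    (hg : g ∈ Rd n) : Nat.card (S.PP (2 * g.1) g.2.1 (2 * g.2.2)) =
      if Gk n S.d g then τ * 2 ^ (n.primeFactors.card - 1) else 0 := by
  obtain ⟨a, b, c⟩ := g
  have hR := mem_Rd.1 hg
  simp only at hR ⊢
  obtain ⟨hn, ha, -⟩ := hR
  have hn0 : 0 < n := Nat.pos_of_ne_zero hsq.ne_zero
  obtain ⟨h1, h2⟩ := gcd_facts hsq a
  set e : ℕ := Int.gcd a n with he
  set f : ℕ := n / e with hf
  -- the base change
  obtain ⟨s, q', hsq'⟩ : IsCoprime (e : ℤ) (f : ℤ) := Nat.isCoprime_iff_coprime.2 h2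
  have hdet : (e : ℤ) * s - (-q') * f = 1 := by linear_combination hsq'
  have hv : vl n (a, b, c) = a * (e : ℤ) ^ 2 + b * ((e : ℤ) * f) + c * (f : ℤ) ^ 2 := rfl
  rw [card_PP_change S hdet]
  have hnew : 4 * (a * (e : ℤ) ^ 2 + b * ((e : ℤ) * f) + c * (f : ℤ) ^ 2) *
      (a * (-q') ^ 2 + b * ((-q') * s) + c * s ^ 2) -
      (2 * a * ((e : ℤ) * (-q')) + b * ((e : ℤ) * s + (-q') * f) + 2 * c * ((f : ℤ) * s)) ^ 2 =
      n := by
    have : 4 * (a * (e : ℤ) ^ 2 + b * ((e : ℤ) * f) + c * (f : ℤ) ^ 2) *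
      (a * (-q') ^ 2 + b * ((-q') * s) + c * s ^ 2) -
      (2 * a * ((e : ℤ) * (-q')) + b * ((e : ℤ) * s + (-q') * f) + 2 * c * ((f : ℤ) * s)) ^ 2 =
      (4 * a * c - b ^ 2) * ((e : ℤ) * s - (-q') * f) ^ 2 := by ring
    rw [this, hdet, hn]; ring
  have hpos : 0 < a * (e : ℤ) ^ 2 + b * ((e : ℤ) * f) + c * (f : ℤ) ^ 2 := by
    apply pos_val ha (by rw [hn]; exact_mod_cast hn0)
    left
    intro h0
    rw [show e = 0 by exact_mod_cast h0, zero_mul] at h1
    omega
  have hcv := vl_coprime hsq (a := a) (b := b) (c := c) hn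
  rw [hv] at hcv
  have hcard := card_PP S hT hτ hnew hpos hsq hodd hcv
  rw [hcard]
  have hw : 0 < 2 * (a * (e : ℤ) ^ 2 + b * ((e : ℤ) * f) + c * (f : ℤ) ^ 2) * S.d := by positivity
  have h5 := card_Iu hsq hodd hw
  have h5m := five_mem hnm hsq
  -- the symbols do not vanish
  have hJ : ∀ p ∈ n.primeFactors.erase 5, jacobiSym (-(2 * S.d * vl n (a, b, c))) p = 1 ∨
      jacobiSym (-(2 * S.d * vl n (a, b, c))) p = -1 := by
    intro p hp'
    obtain ⟨hp5, hp⟩ := Finset.mem_erase.1 hp'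
    have hpp := Nat.prime_of_mem_primeFactors hp
    have hpn := Nat.dvd_of_mem_primeFactors hp
    have hpm : p ∣ m := by
      rw [hnm] at hpn
      rcases (Nat.Prime.dvd_mul hpp).1 hpn with h | h
      · exact absurd ((Nat.prime_dvd_prime_iff_eq hpp Nat.prime_five).1 h) hp5
      · exact h
    have hc2 : IsCoprime (2 : ℤ) (n : ℤ) := by
      obtain ⟨k, hk⟩ := hodd
      refine ⟨-k, 1, ?_⟩
      rw [hk]; push_cast; ring
    have hall : IsCoprime (-(2 * S.d * vl n (a, b, c))) (p : ℤ) := by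
      have h6 : IsCoprime (2 * vl n (a, b, c)) (n : ℤ) :=
        hc2.mul_left (vl_coprime hsq hn)
      have h7 : IsCoprime (2 * vl n (a, b, c)) (p : ℤ) :=
        h6.of_isCoprime_of_dvd_right (by exact_mod_cast hpn)
      have h8 : IsCoprime S.d (p : ℤ) := hcop.of_isCoprime_of_dvd_right (by exact_mod_cast hpm)
      have h9 : 2 * S.d * vl n (a, b, c) = S.d * (2 * vl n (a, b, c)) := by ring
      rw [h9]
      exact (h8.mul_left h7).neg_left
    have : NeZero p := ⟨hpp.ne_zero⟩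
    have h7 : jacobiSym (-(2 * S.d * vl n (a, b, c))) p ≠ 0 := by
      rw [Ne, jacobiSym.eq_zero_iff_not_coprime]
      exact fun h => h (Int.isCoprime_iff_gcd_eq_one.1 hall)
    rcases jacobiSym.trichotomy (-(2 * S.d * vl n (a, b, c))) p with h | h | h
    · exact absurd h h7
    · exact Or.inl h
    · exact Or.inr h
  have harg : -(2 * (a * (e : ℤ) ^ 2 + b * ((e : ℤ) * f) + c * (f : ℤ) ^ 2) * S.d) =
      -(2 * S.d * vl n (a, b, c)) := by rw [hv]; ring
  rw [harg, ← Finset.mul_prod_erase _ _ h5m] at h5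
  have hj5 : jacobiSym (-(2 * S.d * vl n (a, b, c))) 5 = 0 := by
    obtain ⟨k, hk⟩ := h5d
    rw [jacobiSym.mod_left]
    have : (-(2 * S.d * vl n (a, b, c))) % ((5 : ℕ) : ℤ) = 0 := by
      apply Int.emod_eq_zero_of_dvd
      exact ⟨-(2 * k * vl n (a, b, c)), by rw [hk]; push_cast; ring⟩
    rw [this]
    exact jacobiSym.zero_left (by norm_num)
  rw [hj5, add_zero, one_mul] at h5
  split_ifs with hG
  · congr 1
    have : ((Iu n (2 * (a * (e : ℤ) ^ 2 + b * ((e : ℤ) * f) + c * (f : ℤ) ^ 2) * S.d)).card : ℤ) =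
        ((2 ^ (n.primeFactors.card - 1) : ℕ) : ℤ) := by
      rw [h5, Finset.prod_congr rfl (fun p hp => by rw [hG p hp])]
      rw [Finset.prod_const, Finset.card_erase_of_mem h5m]; push_cast; norm_num
    exact_mod_cast this
  · have : ((Iu n (2 * (a * (e : ℤ) ^ 2 + b * ((e : ℤ) * f) + c * (f : ℤ) ^ 2) * S.d)).card : ℤ) =
        0 := by
      rw [h5, Finset.prod_eq_zero_iff]
      unfold Gk at hG
      push Not at hG
      obtain ⟨p, hp, hne⟩ := hG
      refine ⟨p, hp, ?_⟩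
      rcases hJ p hp with h | h
      · exact absurd h hne
      · rw [h]; norm_num
    have h8 : (Iu n (2 * (a * (e : ℤ) ^ 2 + b * ((e : ℤ) * f) + c * (f : ℤ) ^ 2) * S.d)).card =
        0 := by exact_mod_cast this
    rw [h8, mul_zero]

/-- the number of vectors -/
theorem card_vec {τ : ℕ} (hpos : S.Pos) (hT : S.Tors τ) (hτ : τ ≠ 0) (hd : 0 < S.d)
    (h5d : (5 : ℤ) ∣ S.d) {n m : ℕ} (hnm : n = 5 * m)
    (hsq : Squarefree n) (hodd : Odd n) (hn3 : n ≠ 3) (hcop : IsCoprime S.d (m : ℤ))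
    {VV : Finset V} (hVV : ∀ v, v ∈ VV ↔ S.nm v = n)
    (hev : ∀ v, S.nm v = n → ∀ u : V, dt v u = 0 → Even (S.B u u)) :
    2 * VV.card = τ * 2 ^ (n.primeFactors.card - 1) * ((Rd n).filter fun g => Gk n S.d g).card := by
  rw [sum_PP S hpos hsq hodd hn3 hVV hev,
    Finset.sum_congr rfl (fun g hg => card_PP_red S hT hτ hd h5d hnm hsq hodd hcop hg),
    ← Finset.sum_filter, Finset.sum_const, smul_eq_mul, mul_comm]

/-- the factorizations `n = r s`, `r < s`, satisfying the genus condition -/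
def AK (n : ℕ) (d : ℤ) : Finset ℕ := n.divisors.filter fun r => r * r < n ∧
  (∀ p ∈ r.primeFactors, p ≠ 5 → jacobiSym (-(2 * d * ((n / r : ℕ) : ℤ))) p = 1) ∧
  (∀ p ∈ (n / r).primeFactors, p ≠ 5 → jacobiSym (-(2 * d * (r : ℤ))) p = 1)

/-- parity: only the ambiguous forms count -/
theorem card_parity {n : ℕ} (hodd : Odd n) (d : ℤ) :
    Odd ((Rd n).filter fun g => Gk n d g).card ↔
      Odd ((Rd n).filter fun g => Gk n d g ∧ (g.2.1 = g.1 ∨ g.1 = g.2.2)).card := by
  classical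
  have hb0 : ∀ g ∈ Rd n, g.2.1 ≠ 0 := by
    intro g hg h0
    have h := (mem_Rd.1 hg).1
    rw [h0] at h
    obtain ⟨k, hk⟩ := hodd
    have : (2 : ℤ) ∣ 1 := ⟨2 * (g.1 * g.2.2) - k, by rw [hk] at h; push_cast at h; linarith⟩
    norm_num at this
  have hsplit : ((Rd n).filter fun g => Gk n d g).card =
      ((Rd n).filter fun g => Gk n d g ∧ (g.2.1 = g.1 ∨ g.1 = g.2.2)).card +
      ((Rd n).filter fun g => Gk n d g ∧ ¬ (g.2.1 = g.1 ∨ g.1 = g.2.2)).card := by
    rw [← Finset.card_filter_add_card_filter_not (s := (Rd n).filter fun g => Gk n d g)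
      (fun g => g.2.1 = g.1 ∨ g.1 = g.2.2), Finset.filter_filter, Finset.filter_filter]
  have heven : Even ((Rd n).filter fun g => Gk n d g ∧ ¬ (g.2.1 = g.1 ∨ g.1 = g.2.2)).card := by
    have h0 : ∑ _g ∈ (Rd n).filter (fun g => Gk n d g ∧ ¬ (g.2.1 = g.1 ∨ g.1 = g.2.2)),
        (1 : ZMod 2) = 0 := by
      refine Finset.sum_involution (fun g _ => (g.1, -g.2.1, g.2.2)) ?_ ?_ ?_ ?_
      · intro g _; decide
      · rintro ⟨a, b, c⟩ hg _ h
        simp only [Prod.mk.injEq, true_and, and_true] at h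
        exact hb0 _ (Finset.mem_filter.1 hg).1 (by simp only; omega)
      · rintro ⟨a, b, c⟩ hg
        obtain ⟨h1, h2, h3⟩ := Finset.mem_filter.1 hg
        rw [Finset.mem_filter]
        have hR := mem_Rd.1 h1
        simp only at hR h2 h3 ⊢
        push Not at h3
        obtain ⟨r1, r2, r3, r4, r5, r6⟩ := hR
        refine ⟨mem_Rd.2 ⟨by rw [← r1]; ring, r2, by
          simp only; have := lt_of_le_of_ne r4 h3.1; linarith, by simp only; linarith, r5,
          fun h => absurd h h3.2⟩, ?_, ?_⟩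
        · intro p hp
          rw [← h2 p hp]
          apply jacobiSym.mod_left'
          refine Int.ModEq.symm (Int.modEq_iff_dvd.2 ?_)
          have hpn : (p : ℤ) ∣ n := by
            exact_mod_cast Nat.dvd_of_mem_primeFactors (Finset.mem_erase.1 hp).2
          have hef : ((Int.gcd a n : ℕ) : ℤ) * ((n / Int.gcd a n : ℕ) : ℤ) = n := by
            have h1 : Int.gcd a n ∣ n := by
              have := Int.gcd_dvd_right a (n : ℤ)
              exact_mod_cast this
            exact_mod_cast Nat.mul_div_cancel' h1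
          have : -(2 * d * vl n (a, -b, c)) - -(2 * d * vl n (a, b, c)) = n * (4 * d * b) := by
            simp only [vl]
            linear_combination (4 * d * b) * hef
          rw [this]
          exact Dvd.dvd.mul_right hpn _
        · rintro (h | h)
          · linarith
          · exact h3.2 h
      · rintro ⟨a, b, c⟩ _
        simp
    rw [Finset.sum_const, nsmul_eq_mul, mul_one] at h0
    exact (ZMod.natCast_eq_zero_iff_even).1 h0
  rw [hsplit, Nat.odd_add]
  exact ⟨fun h => h.2 heven, fun h => ⟨fun _ => heven, fun _ => h⟩⟩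

theorem Gk_fo {n r : ℕ} (hr : r ∣ n) (hsq : Squarefree n) (h4 : n % 4 = 3) (d : ℤ) :
    Gk n d (fo n r) ↔
      (∀ p ∈ r.primeFactors, p ≠ 5 → jacobiSym (-(2 * d * ((n / r : ℕ) : ℤ))) p = 1) ∧
      (∀ p ∈ (n / r).primeFactors, p ≠ 5 → jacobiSym (-(2 * d * (r : ℤ))) p = 1) := by
  have hrs : r * (n / r) = n := Nat.mul_div_cancel' hr
  obtain ⟨k, hk, hcop, hr0, hs0⟩ := AF_aux hrs hsq h4
  have hpf : ∀ p, p ∈ n.primeFactors ↔ p ∈ r.primeFactors ∨ p ∈ (n / r).primeFactors := by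
    intro p
    conv_lhs => rw [← hrs, Nat.primeFactors_mul hr0.ne' hs0.ne', Finset.mem_union]
  constructor
  · intro h
    refine ⟨fun p hp h5 => ?_, fun p hp h5 => ?_⟩
    · rw [← (vl_fo hrs hsq h4 hk hr0 hcop d p (Nat.prime_of_mem_primeFactors hp)).1
        (Nat.dvd_of_mem_primeFactors hp)]
      exact h p (Finset.mem_erase.2 ⟨h5, (hpf p).2 (Or.inl hp)⟩)
    · rw [← (vl_fo hrs hsq h4 hk hr0 hcop d p (Nat.prime_of_mem_primeFactors hp)).2
        (Nat.dvd_of_mem_primeFactors hp)]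
      exact h p (Finset.mem_erase.2 ⟨h5, (hpf p).2 (Or.inr hp)⟩)
  · rintro ⟨h1, h2⟩ p hp
    obtain ⟨h5, hp⟩ := Finset.mem_erase.1 hp
    rcases (hpf p).1 hp with hp' | hp'
    · rw [(vl_fo hrs hsq h4 hk hr0 hcop d p (Nat.prime_of_mem_primeFactors hp')).1
        (Nat.dvd_of_mem_primeFactors hp')]
      exact h1 p hp' h5
    · rw [(vl_fo hrs hsq h4 hk hr0 hcop d p (Nat.prime_of_mem_primeFactors hp')).2
        (Nat.dvd_of_mem_primeFactors hp')]
      exact h2 p hp' h5

/-- ambiguous reduced forms are factorizations -/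
theorem card_amb {n : ℕ} (hsq : Squarefree n) (h4 : n % 4 = 3) (d : ℤ) :
    ((Rd n).filter fun g => Gk n d g ∧ (g.2.1 = g.1 ∨ g.1 = g.2.2)).card = (AK n d).card := by
  symm
  have hn0 : n ≠ 0 := hsq.ne_zero
  refine Finset.card_bij (fun r _ => fo n r) ?_ ?_ ?_
  · intro r hr
    simp only [AK, mem_filter, Nat.mem_divisors] at hr
    obtain ⟨⟨hrn, -⟩, hlt, hG⟩ := hr
    have hrs : r * (n / r) = n := Nat.mul_div_cancel' hrn
    obtain ⟨k, hk, hcop, hr0, hs0⟩ := AF_aux hrs hsq h4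
    have hGc := (Gk_fo hrn hsq h4 d).2 hG
    generalize hs : n / r = s at *
    have hrslt : r < s := by
      have : r * r < r * s := by rw [hrs]; exact hlt
      exact Nat.lt_of_mul_lt_mul_left this
    have hk4 : (r + s) / 4 = k := by omega
    have hkZ : (r : ℤ) + s = 4 * k := by exact_mod_cast hk
    have hrsZ : (r : ℤ) * s = n := by exact_mod_cast hrs
    rw [mem_filter]
    refine ⟨mem_Rd.2 ?_, hGc, ?_⟩
    · by_cases hc : 3 * r ≤ s
      · have hfo : fo n r = ((r : ℤ), (r : ℤ), (k : ℤ)) := by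
          unfold fo; rw [hs, if_pos hc, hk4]
        rw [hfo]
        simp only
        refine ⟨?_, by exact_mod_cast hr0, by omega, le_refl _, by omega, fun _ => by omega⟩
        rw [← hrsZ]; linear_combination -(r : ℤ) * hkZ
      · have hfo : fo n r = ((k : ℤ), 2 * (k : ℤ) - r, (k : ℤ)) := by
          unfold fo; rw [hs, if_neg hc, hk4]
        rw [hfo]
        simp only
        refine ⟨?_, by omega, by omega, by omega, le_refl _, fun _ => by omega⟩
        rw [← hrsZ]; linear_combination -(r : ℤ) * hkZ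
    · by_cases hc : 3 * r ≤ s
      · left; unfold fo; rw [hs, if_pos hc]
      · right; unfold fo; rw [hs, if_neg hc]
  · intro r hr r' hr' heq
    simp only [AK, mem_filter, Nat.mem_divisors] at hr hr'
    have key : ∀ r : ℕ, r ∣ n → r * r < n →
        ((fo n r).2.1 = (fo n r).1 → (r : ℤ) = (fo n r).1) ∧
        ((fo n r).2.1 ≠ (fo n r).1 → (r : ℤ) = 2 * (fo n r).1 - (fo n r).2.1) := by
      intro r hrn hlt
      have hrs : r * (n / r) = n := Nat.mul_div_cancel' hrn
      obtain ⟨k, hk, hcop, hr0, hs0⟩ := AF_aux hrs hsq h4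
      generalize hs : n / r = s at *
      have hk4 : (r + s) / 4 = k := by omega
      by_cases hc : 3 * r ≤ s
      · have hfo : fo n r = ((r : ℤ), (r : ℤ), (k : ℤ)) := by
          unfold fo; rw [hs, if_pos hc, hk4]
        rw [hfo]
        simp
      · have hfo : fo n r = ((k : ℤ), 2 * (k : ℤ) - r, (k : ℤ)) := by
          unfold fo; rw [hs, if_neg hc, hk4]
        rw [hfo]
        simp only
        constructor
        · intro h; omega
        · intro _; ring
    obtain ⟨k1, k2⟩ := key r hr.1.1 hr.2.1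
    obtain ⟨k1', k2'⟩ := key r' hr'.1.1 hr'.2.1
    rw [heq] at k1 k2
    have : (r : ℤ) = r' := by
      by_cases h : (fo n r').2.1 = (fo n r').1
      · rw [k1 h, k1' h]
      · rw [k2 h, k2' h]
    exact_mod_cast this
  · rintro ⟨a, b, c⟩ hg
    obtain ⟨h1, h2⟩ := mem_filter.1 hg
    have h3 := h2.2
    obtain ⟨r1, r2, r3, r4, r5, r6⟩ := mem_Rd.1 h1
    simp only at r1 r2 r3 r4 r5 r6 h3
    have hb0 : b ≠ 0 := by
      rintro rfl
      have h5 : (n : ℤ) % 4 = 3 := by exact_mod_cast h4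
      rw [← r1] at h5
      have : (4 * a * c - 0 ^ 2) = 4 * (a * c) := by ring
      rw [this] at h5
      omega
    -- the factorization
    obtain ⟨r, s, hr0, hrs, hlt, hfo⟩ : ∃ r s : ℕ, 0 < r ∧ r * s = n ∧ r < s ∧
        fo n r = (a, b, c) := by
      by_cases hba : b = a
      · subst hba
        obtain ⟨r, hr⟩ : ∃ r : ℕ, (r : ℤ) = b := ⟨b.toNat, Int.toNat_of_nonneg (by omega)⟩
        obtain ⟨s, hs⟩ : ∃ s : ℕ, (s : ℤ) = 4 * c - b :=
          ⟨(4 * c - b).toNat, Int.toNat_of_nonneg (by omega)⟩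
        have hrs : r * s = n := by
          have : (r : ℤ) * s = n := by rw [hr, hs, ← r1]; ring
          exact_mod_cast this
        have hr0 : 0 < r := by omega
        have hnr : n / r = s := by rw [← hrs]; exact Nat.mul_div_cancel_left _ hr0
        refine ⟨r, s, hr0, hrs, by omega, ?_⟩
        unfold fo
        rw [hnr, if_pos (by omega)]
        have : (((r + s) / 4 : ℕ) : ℤ) = c := by omega
        rw [this, hr]
      · have hac : a = c := h3.resolve_left hba
        subst hac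
        have hbp : 0 < b := lt_of_le_of_ne (r6 rfl) (Ne.symm hb0)
        have hbl : b < a := lt_of_le_of_ne r4 hba
        obtain ⟨r, hr⟩ : ∃ r : ℕ, (r : ℤ) = 2 * a - b :=
          ⟨(2 * a - b).toNat, Int.toNat_of_nonneg (by omega)⟩
        obtain ⟨s, hs⟩ : ∃ s : ℕ, (s : ℤ) = 2 * a + b :=
          ⟨(2 * a + b).toNat, Int.toNat_of_nonneg (by omega)⟩
        have hrs : r * s = n := by
          have : (r : ℤ) * s = n := by rw [hr, hs, ← r1]; ring
          exact_mod_cast this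
        have hr0 : 0 < r := by omega
        have hnr : n / r = s := by rw [← hrs]; exact Nat.mul_div_cancel_left _ hr0
        refine ⟨r, s, hr0, hrs, by omega, ?_⟩
        unfold fo
        rw [hnr, if_neg (by omega)]
        have : (((r + s) / 4 : ℕ) : ℤ) = a := by omega
        rw [this, hr]
        simp
    have hrn : r ∣ n := ⟨s, hrs.symm⟩
    refine ⟨r, ?_, hfo⟩
    simp only [AK, mem_filter, Nat.mem_divisors]
    refine ⟨⟨hrn, hn0⟩, ?_, (Gk_fo hrn hsq h4 d).1 (by rw [hfo]; exact h2.1)⟩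
    calc r * r < r * s := Nat.mul_lt_mul_of_pos_left hlt hr0
      _ = n := hrs

end Pool.Agent.N970.P225
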